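import Pool.Agent.FCH.StmtsL

/-!
# Squad FCH, part L, row LEX (helper26): expansion with unit coefficients
-/

set_option autoImplicit false

namespace Pool.Agent.FCH.H26

open Pool.Agent.LCI Pool.Agent.DFO Pool.Agent.FCH
open scoped BigOperators

section
variable {k K : Type} [Field k] [Field K] [Algebra k K] {n : ℕ} {O : Subalgebra k K}
  {y : Frame k K n} {P : Finset (Fin n)}

theorem mxi_zero : Mxi O y P 0 :=
  ⟨fun _ => 0, fun _ => O.zero_mem, by simp⟩

theorem mxi_add {f g : K} (hf : Mxi O y P f) (hg : Mxi O y P g) : Mxi O y P (f + g) := by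
  obtain ⟨c, hc, rfl⟩ := hf
  obtain ⟨d, hd, rfl⟩ := hg
  refine ⟨fun i => c i + d i, fun i => O.add_mem (hc i) (hd i), ?_⟩
  rw [← Finset.sum_add_distrib]
  exact Finset.sum_congr rfl fun i _ => (add_mul _ _ _).symm

theorem mxi_mul {a f : K} (ha : a ∈ O) (hf : Mxi O y P f) : Mxi O y P (a * f) := by
  obtain ⟨c, hc, rfl⟩ := hf
  refine ⟨fun i => a * c i, fun i => O.mul_mem ha (hc i), ?_⟩
  rw [Finset.mul_sum]
  exact Finset.sum_congr rfl fun i _ => (mul_assoc _ _ _).symm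

theorem mxi_neg {f : K} (hf : Mxi O y P f) : Mxi O y P (-f) := by
  have h := mxi_mul (O.neg_mem O.one_mem) hf
  rwa [neg_one_mul] at h

/-- a unit is not in the maximal ideal -/
theorem unit_not_mxi (h1 : ¬ Mxi O y P 1) {u : K} (hu0 : u ≠ 0) (hu' : u⁻¹ ∈ O) :
    ¬ Mxi O y P u := by
  intro h
  apply h1
  have h2 := mxi_mul hu' h
  rwa [inv_mul_cancel₀ hu0] at h2

theorem mny_add (a b : Fin n →₀ ℕ) : mny y (a + b) = mny y a * mny y b := by
  unfold mny
  rw [← Finset.prod_mul_distrib]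
  exact Finset.prod_congr rfl fun i _ => by rw [Finsupp.add_apply, pow_add]

theorem mny_mem (hx : ∀ i, y.x i ∈ O) (a : Fin n →₀ ℕ) : mny y a ∈ O :=
  O.prod_mem fun i _ => O.pow_mem (hx i) _

theorem sz_mono {a b : Fin n →₀ ℕ} (h : a ≤ b) : sz a ≤ sz b :=
  Finset.sum_le_sum fun i _ => h i

/-- the derivation test for a finite sum -/
theorem dd [CharZero k] (ldt : LdtStmt) {I : Finset (Fin n)} (hL : LPt O y P I)
    (β : Fin n →₀ ℕ) (hβ : ∀ i, i ∉ P → β i = 0) (B : Finset (Fin n →₀ ℕ))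
    (a : (Fin n →₀ ℕ) → K) (ha : ∀ γ ∈ B, a γ ∈ O ∧ ∀ i, i ∉ P → γ i = 0)
    (hB : ∀ γ ∈ B, γ ≠ β → ¬ γ ≤ β) :
    ∃ r, Mxi O y P r ∧ ddy y β (∑ γ ∈ B, a γ * mny y γ) =
      (if β ∈ B then ((∏ i, (β i).factorial : ℕ) : K) * a β else 0) + r := by
  classical
  obtain ⟨-, h2, h3, h4⟩ := ldt k K n O y P I hL β hβ
  have hd0 : ddy y β 0 = 0 := by
    have h := h4 0 0
    rw [add_zero] at h
    exact left_eq_add.1 h
  induction B using Finset.induction_on with
  | empty =>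
    refine ⟨0, mxi_zero, ?_⟩
    rw [Finset.sum_empty, hd0]
    simp
  | insert γ B hγ ih =>
    obtain ⟨r, hr, ih⟩ := ih (fun γ' h => ha γ' (Finset.mem_insert_of_mem h))
      (fun γ' h => hB γ' (Finset.mem_insert_of_mem h))
    obtain ⟨haγ, hsγ⟩ := ha γ (Finset.mem_insert_self _ _)
    rw [Finset.sum_insert hγ, h4, ih]
    by_cases hc : γ = β
    · subst hc
      obtain ⟨r', hr', h5⟩ := h3 (a γ) haγ
      refine ⟨r' + r, mxi_add hr' hr, ?_⟩
      rw [h5, if_neg hγ, if_pos (Finset.mem_insert_self _ _)]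
      ring
    · have h5 := h2 γ hsγ (hB γ (Finset.mem_insert_self _ _) hc) (a γ) haγ
      refine ⟨ddy y β (a γ * mny y γ) + r, mxi_add h5 hr, ?_⟩
      have h6 : β ∈ insert γ B ↔ β ∈ B := by
        rw [Finset.mem_insert]
        constructor
        · rintro (h | h)
          · exact absurd h.symm hc
          · exact h
        · exact Or.inr
      simp only [h6]
      ring

end

/-- a minimal element below a given one -/
theorem exists_min_le {n : ℕ} (A : Finset (Fin n →₀ ℕ)) (β : Fin n →₀ ℕ) (hβ : β ∈ A) :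
    ∃ β' ∈ A, β' ≤ β ∧ ∀ γ ∈ A, γ ≤ β' → γ = β' := by
  classical
  have hne : (A.filter fun γ => γ ≤ β).Nonempty := ⟨β, Finset.mem_filter.2 ⟨hβ, le_rfl⟩⟩
  obtain ⟨m, hm⟩ := (A.filter fun γ => γ ≤ β).exists_minimal hne
  have hm1 := Finset.mem_filter.1 hm.1
  refine ⟨m, hm1.1, hm1.2, fun γ hγ hγm => ?_⟩
  exact le_antisymm hγm (hm.2 (Finset.mem_filter.2 ⟨hγ, hγm.trans hm1.2⟩) hγm)

theorem lex (ldt : LdtStmt) (lkr : LkrStmt) (lxn : LxnStmt) (zdi : ZdiStmt) : LexStmt := by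
  intro k K _ _ _ _ n O y P I hL f hf hf0
  classical
  have hchar : CharZero K := charZero_of_injective_algebraMap (algebraMap k K).injective
  obtain ⟨S, hSX, hXS⟩ := zdi n {β | (∀ i, i ∉ P → β i = 0) ∧ ¬ Mxi O y P (ddy y β f)}
  set M := S.filter fun μ => ∀ ν ∈ S, ν ≤ μ → ν = μ with hM
  have hMX : ∀ β, ((∀ i, i ∉ P → β i = 0) ∧ ¬ Mxi O y P (ddy y β f)) → ∃ μ ∈ M, μ ≤ β := by
    intro β hβ
    obtain ⟨μ, hμ, hμβ⟩ := hXS β hβ
    obtain ⟨μ', hμ', h1, h2⟩ := exists_min_le S μ hμ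
    exact ⟨μ', Finset.mem_filter.2 ⟨hμ', h2⟩, h1.trans hμβ⟩
  have hMS : ∀ β ∈ M, ((∀ i, i ∉ P → β i = 0) ∧ ¬ Mxi O y P (ddy y β f)) ∧
      ∀ ν ∈ M, ν ≤ β → ν = β := by
    intro β hβ
    obtain ⟨h1, h2⟩ := Finset.mem_filter.1 hβ
    exact ⟨hSX β h1, fun ν hν => h2 ν (Finset.mem_filter.1 hν).1⟩
  have hfact : ∀ β : Fin n →₀ ℕ, (((∏ i, (β i).factorial : ℕ) : K)⁻¹ ∈ O) ∧
      ((∏ i, (β i).factorial : ℕ) : K) ≠ 0 := by
    intro β
    constructor
    · have h1 : ((∏ i, (β i).factorial : ℕ) : K)⁻¹ =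
          algebraMap k K (((∏ i, (β i).factorial : ℕ) : k)⁻¹) := by
        rw [map_inv₀, map_natCast]
      rw [h1]
      exact O.algebraMap_mem _
    · rw [Nat.cast_ne_zero]
      exact Finset.prod_ne_zero_iff.2 fun i _ => Nat.factorial_ne_zero _
  -- the expansion modulo high powers
  have hkey : ∀ N : ℕ, ∃ (A : Finset (Fin n →₀ ℕ)) (c c' : (Fin n →₀ ℕ) → K),
      (∀ β, c β ∈ O ∧ c' β ∈ O) ∧ (∀ β ∈ A, N ≤ sz β ∧ ∀ i, i ∉ P → β i = 0) ∧
      f = ∑ β ∈ M, c β * mny y β + ∑ β ∈ A, c' β * mny y β := by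
    intro N
    obtain ⟨A, A', u, c, hA, hA', hsum⟩ := lxn k K n O y P I hL N f hf
    -- the claim
    have hcl : ∀ β ∈ A, ∃ μ ∈ M, μ ≤ β := by
      intro β hβ
      obtain ⟨β', hβ', h1, h2⟩ := exists_min_le A β hβ
      obtain ⟨hsz, hsupp, huO, hu', hu0⟩ := hA β' hβ'
      obtain ⟨r, hr, hr2⟩ := dd ldt hL β' hsupp A u
        (fun γ hγ => ⟨(hA γ hγ).2.2.1, (hA γ hγ).2.1⟩)
        (fun γ hγ hne hle => hne (h2 γ hγ hle))
      obtain ⟨r', hr', hr2'⟩ := dd ldt hL β' hsupp A' c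
        (fun γ hγ => ⟨(hA' γ hγ).2.2, (hA' γ hγ).2.1⟩)
        (fun γ hγ _ hle => by
          have h3 := sz_mono hle
          rw [(hA' γ hγ).1] at h3
          omega)
      have hnot : β' ∉ A' := by
        intro h
        have := (hA' β' h).1
        omega
      rw [if_pos hβ'] at hr2
      rw [if_neg hnot, zero_add] at hr2'
      obtain ⟨-, -, -, h4⟩ := ldt k K n O y P I hL β' hsupp
      have h5 : ddy y β' f = ((∏ i, (β' i).factorial : ℕ) : K) * u β' + (r + r') := by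
        rw [hsum, h4, hr2, hr2']
        ring
      obtain ⟨μ, hμ, hμβ⟩ := hMX β' ⟨hsupp, fun hmx => by
        have h6 : Mxi O y P (((∏ i, (β' i).factorial : ℕ) : K) * u β') := by
          have h7 := mxi_add hmx (mxi_neg (mxi_add hr hr'))
          rw [h5] at h7
          have h8 : ((∏ i, (β' i).factorial : ℕ) : K) * u β' + (r + r') + -(r + r') =
            ((∏ i, (β' i).factorial : ℕ) : K) * u β' := by ring
          rwa [h8] at h7
        have h9 := mxi_mul (hfact β').1 h6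
        rw [← mul_assoc, inv_mul_cancel₀ (hfact β').2, one_mul] at h9
        exact unit_not_mxi hL.one hu0 hu' h9⟩
      exact ⟨μ, hμ, hμβ.trans h1⟩
    choose! φ hφM hφle using hcl
    refine ⟨A', fun μ => ∑ β ∈ A.filter (fun β => φ β = μ), u β * mny y (β - μ),
      fun β => if β ∈ A' then c β else 0, fun β => ⟨?_, ?_⟩, fun β hβ => ⟨(hA' β hβ).1.ge,
        (hA' β hβ).2.1⟩, ?_⟩
    · refine O.sum_mem fun γ hγ => O.mul_mem (hA γ (Finset.mem_filter.1 hγ).1).2.2.1 ?_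
      exact mny_mem hL.mem _
    · show (if β ∈ A' then c β else 0) ∈ O
      split_ifs with h
      · exact (hA' β h).2.2
      · exact O.zero_mem
    · have e1 : ∑ β ∈ A', (if β ∈ A' then c β else 0) * mny y β =
          ∑ β ∈ A', c β * mny y β :=
        Finset.sum_congr rfl fun β hβ => by rw [if_pos hβ]
      have e2 : ∑ μ ∈ M, (∑ β ∈ A.filter (fun β => φ β = μ), u β * mny y (β - μ)) * mny y μ =
          ∑ β ∈ A, u β * mny y β := by
        rw [← Finset.sum_fiberwise_of_maps_to (s := A) (t := M) (g := φ) (fun β hβ => hφM β hβ)]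
        refine Finset.sum_congr rfl fun μ _ => ?_
        rw [Finset.sum_mul]
        refine Finset.sum_congr rfl fun β hβ => ?_
        obtain ⟨hβA, hβμ⟩ := Finset.mem_filter.1 hβ
        have h3 : μ ≤ β := hβμ ▸ hφle β hβA
        rw [mul_assoc, ← mny_add, tsub_add_cancel_of_le h3]
      show f = ∑ μ ∈ M, (∑ β ∈ A.filter (fun β => φ β = μ), u β * mny y (β - μ)) * mny y μ +
        ∑ β ∈ A', (if β ∈ A' then c β else 0) * mny y β
      rw [e1, e2]
      exact hsum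
  obtain ⟨c, hc, hfc⟩ := lkr k K n O y P I hL M f hf hkey
  refine ⟨M, c, ?_, fun β hβ => (hMS β hβ).1.1, ?_, ?_, hfc⟩
  · by_contra hne
    rw [Finset.not_nonempty_iff_eq_empty] at hne
    rw [hne, Finset.sum_empty] at hfc
    exact hf0 hfc
  · intro β hβ
    obtain ⟨⟨hsupp, hnm⟩, hmin⟩ := hMS β hβ
    obtain ⟨r, hr, hr2⟩ := dd ldt hL β hsupp M c
      (fun γ hγ => ⟨hc γ, (hMS γ hγ).1.1⟩) (fun γ hγ hne hle => hne (hmin γ hγ hle))
    rw [if_pos hβ, ← hfc] at hr2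
    have hcn : ¬ Mxi O y P (c β) := by
      intro h
      apply hnm
      rw [hr2]
      refine mxi_add (mxi_mul ?_ h) hr
      exact O.natCast_mem _
    refine ⟨hc β, ?_, ?_⟩
    · rcases hL.loc (c β) (hc β) with h | h
      · exact absurd h hcn
      · exact h
    · intro h
      rw [h] at hcn
      exact hcn mxi_zero
  · intro β hβ γ hγ hle
    exact (hMS γ hγ).2 β hβ hle

end Pool.Agent.FCH.H26
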