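import Pool.Agent.FCH.StmtsV
import Pool.Agent.Helper50_UCH.UNE

/-!
# Squad FCH, part V, row VSS (helper26): the setting
-/

set_option autoImplicit false

namespace Pool.Agent.FCH.H26

open Pool.Agent.LCI Pool.Agent.DFO Pool.Agent.FCH
open scoped BigOperators

section
variable {k R K : Type} [Field k] [CommRing R] [IsDomain R] [Algebra k R] [Field K] [Algebra k K]
  [Algebra R K] [IsScalarTower k R K] [IsFractionRing R K]

/-- products of elements outside of `m` -/
theorem mul_nmem (m : Ideal R) (hres : ∀ f : R, ∃ c : k, f - algebraMap k R c ∈ m)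
    (x y : R) (hx : x ∉ m) (hy : y ∉ m) : x * y ∉ m := by
  intro h
  obtain ⟨c, hc⟩ := hres y
  have hc0 : c ≠ 0 := by
    rintro rfl
    rw [map_zero, sub_zero] at hc
    exact hy hc
  apply hx
  have h1 : algebraMap k R c * x ∈ m := by
    have h2 : algebraMap k R c * x = x * y - x * (y - algebraMap k R c) := by ring
    rw [h2]
    exact m.sub_mem h (m.mul_mem_left _ hc)
  have h3 : x = algebraMap k R c⁻¹ * (algebraMap k R c * x) := by
    rw [← mul_assoc, ← map_mul, inv_mul_cancel₀ hc0, map_one, one_mul]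
  rw [h3]
  exact m.mul_mem_left _ h1

/-- a common denominator in `R0` -/
theorem common (m : Ideal R) (h1 : (1 : R) ∉ m)
    (hres : ∀ f : R, ∃ c : k, f - algebraMap k R c ∈ m) (R₀ : Subalgebra k R)
    (hloc : ∀ f : R, ∃ s ∈ R₀, s ∉ m ∧ s * f ∈ R₀) (s : ℕ) (c : Fin s → R) :
    ∃ t ∈ R₀, t ∉ m ∧ ∀ a, t * c a ∈ R₀ := by
  classical
  have key : ∀ S : Finset (Fin s), ∃ t ∈ R₀, t ∉ m ∧ ∀ a ∈ S, t * c a ∈ R₀ := by
    intro S
    induction S using Finset.induction_on with
    | empty => exact ⟨1, R₀.one_mem, h1, fun a ha => absurd ha (Finset.notMem_empty a)⟩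
    | insert a S _ ih =>
      obtain ⟨t, ht, htm, hta⟩ := ih
      obtain ⟨u, hu, hum, hua⟩ := hloc (c a)
      refine ⟨u * t, R₀.mul_mem hu ht, mul_nmem m hres u t hum htm, ?_⟩
      intro a' ha'
      rw [Finset.mem_insert] at ha'
      rcases ha' with rfl | ha'
      · have h2 : u * t * c a' = t * (u * c a') := by ring
        rw [h2]
        exact R₀.mul_mem ht hua
      · rw [mul_assoc]
        exact R₀.mul_mem hu (hta a' ha')
  obtain ⟨t, ht, htm, hta⟩ := key Finset.univ
  exact ⟨t, ht, htm, fun a => hta a (Finset.mem_univ a)⟩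

/-- a common denominator in `R0` which is `1` modulo `m` -/
theorem common1 (m : Ideal R) (h1 : (1 : R) ∉ m)
    (hres : ∀ f : R, ∃ c : k, f - algebraMap k R c ∈ m) (R₀ : Subalgebra k R)
    (hloc : ∀ f : R, ∃ s ∈ R₀, s ∉ m ∧ s * f ∈ R₀) (s : ℕ) (c : Fin s → R) :
    ∃ t ∈ R₀, t ∉ m ∧ t - 1 ∈ m ∧ ∀ a, t * c a ∈ R₀ := by
  obtain ⟨t, ht, htm, hta⟩ := common m h1 hres R₀ hloc s c
  obtain ⟨b, hb⟩ := hres t
  have hb0 : b ≠ 0 := by
    rintro rfl
    rw [map_zero, sub_zero] at hb
    exact htm hb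
  have hbi : algebraMap k R b⁻¹ * algebraMap k R b = 1 := by
    rw [← map_mul, inv_mul_cancel₀ hb0, map_one]
  have hm : algebraMap k R b⁻¹ * t - 1 ∈ m := by
    have h2 : algebraMap k R b⁻¹ * t - 1 = algebraMap k R b⁻¹ * (t - algebraMap k R b) := by
      rw [mul_sub, hbi]
    rw [h2]
    exact m.mul_mem_left _ hb
  refine ⟨algebraMap k R b⁻¹ * t, R₀.mul_mem (R₀.algebraMap_mem _) ht, ?_, hm, fun a => ?_⟩
  · intro h
    apply h1
    have h2 : (1 : R) = algebraMap k R b⁻¹ * t - (algebraMap k R b⁻¹ * t - 1) := by ring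
    rw [h2]
    exact m.sub_mem h hm
  · rw [mul_assoc]
    exact R₀.mul_mem (R₀.algebraMap_mem _) (hta a)

theorem amap_ne {f : R} (hf : f ≠ 0) : algebraMap R K f ≠ 0 := fun h =>
  hf (IsFractionRing.injective R K (by rw [h, map_zero]))

/-- multiplication with a unit which is `1` modulo `m` -/
theorem mono_unit (pmn : Pool.Agent.UCH.PmnStmt) (m : Ideal R) (v : RVal k K)
    (hv : Centered m v) (t : R) (ht : t - 1 ∈ m) (htv : v.v (algebraMap R K t) = 0)
    (htm : t ≠ 0) {n : ℕ} (x : Fin n → R) :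
    IsMonomial v (fun i => algebraMap R K (t * x i)) ↔
      IsMonomial v (fun i => algebraMap R K (x i)) := by
  constructor
  · intro h
    refine pmn k K v n _ _ h fun i hi => ?_
    have hx0 : algebraMap R K (t * x i) ≠ 0 := h.1 i
    have hx : x i ≠ 0 := by
      rintro h0
      rw [h0, mul_zero, map_zero] at hx0
      exact hx0 rfl
    have h1 : algebraMap R K (t * x i) - algebraMap R K (x i) =
        algebraMap R K (t - 1) * algebraMap R K (x i) := by
      rw [← map_mul, ← map_sub]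
      congr 1
      ring
    show v.v (algebraMap R K (t * x i)) < v.v (algebraMap R K (t * x i) - algebraMap R K (x i))
    have hi' : algebraMap R K (t * x i) - algebraMap R K (x i) ≠ 0 := hi
    rw [h1] at hi' ⊢
    have h2 : t - 1 ≠ 0 := by
      intro h0
      rw [h0, map_zero, zero_mul] at hi'
      exact hi' rfl
    rw [map_mul, v.mul' _ _ (amap_ne htm) (amap_ne hx), v.mul' _ _ (amap_ne h2) (amap_ne hx), htv]
    have := hv.2 _ ht h2
    linarith
  · intro h
    refine pmn k K v n _ _ h fun i hi => ?_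
    have hx0 : algebraMap R K (x i) ≠ 0 := h.1 i
    have hx : x i ≠ 0 := by
      rintro h0
      rw [h0, map_zero] at hx0
      exact hx0 rfl
    have h1 : algebraMap R K (x i) - algebraMap R K (t * x i) =
        algebraMap R K (-(t - 1)) * algebraMap R K (x i) := by
      rw [← map_mul, ← map_sub]
      congr 1
      ring
    show v.v (algebraMap R K (x i)) < v.v (algebraMap R K (x i) - algebraMap R K (t * x i))
    have hi' : algebraMap R K (x i) - algebraMap R K (t * x i) ≠ 0 := hi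
    rw [h1] at hi' ⊢
    have h2 : -(t - 1) ≠ 0 := by
      intro h0
      rw [h0, map_zero, zero_mul] at hi'
      exact hi' rfl
    rw [v.mul' _ _ (amap_ne h2) (amap_ne hx)]
    have := hv.2 _ (m.neg_mem ht) h2
    linarith

/-- scaling -/
theorem mono_scale {n : ℕ} (v v' : RVal k K) (s : ℝ) (hs : 0 < s)
    (hv' : ∀ f, v'.v f = v.v f / s) (x : Fin n → K) (h : IsMonomial v' x) : IsMonomial v x := by
  refine ⟨h.1, ?_⟩
  intro P hP
  obtain ⟨h1, ⟨α, hα, h2⟩, h3⟩ := h.2 P hP
  refine ⟨h1, ⟨α, hα, ?_⟩, ?_⟩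
  · simp only [hv'] at h2
    have h4 : ∑ i, (α i : ℝ) * (v.v (x i) / s) = (∑ i, (α i : ℝ) * v.v (x i)) / s := by
      rw [Finset.sum_div]
      exact Finset.sum_congr rfl fun i _ => by ring
    rw [h4] at h2
    exact (div_left_inj' hs.ne').1 h2
  · intro β hβ
    have h5 := h3 β hβ
    simp only [hv'] at h5
    have h4 : ∑ i, (β i : ℝ) * (v.v (x i) / s) = (∑ i, (β i : ℝ) * v.v (x i)) / s := by
      rw [Finset.sum_div]
      exact Finset.sum_congr rfl fun i _ => by ring
    rw [h4] at h5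
    exact (div_le_div_iff_of_pos_right hs).1 h5

/-- normalisation of an lc place -/
theorem normal (scl : Pool.Agent.CNL.SclStmt) {n : ℕ} (F : Frame k K n) (l : ℕ) (g : K)
    (m : Ideal R) (a : GSeq m) (c : ℝ) (hlct : IsLct F l g a c) (v : RVal k K)
    (hv : IsLcPlace F l g a c v) (hsv : 0 < seqVal v a) :
    ∃ v' : RVal k K, IsLcPlace F l g a c v' ∧ seqVal v' a = 1 ∧
      ∀ x : Fin n → K, IsMonomial v' x → IsMonomial v x := by
  obtain ⟨v', hv', -⟩ := scl k K v (seqVal v a) hsv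
  have hcen : Centered m v' := by
    refine ⟨fun f hf => ?_, fun f hf hf0 => ?_⟩
    · rw [hv']
      exact div_nonneg (hv.1.1 f hf) hsv.le
    · rw [hv']
      exact div_pos (hv.1.2 f hf hf0) hsv
  have hseq : seqVal v' a = 1 := by
    rw [Pool.Agent.UCH.H50.seqVal_scale a v v' (seqVal v a) hsv hv']
    exact div_self hsv.ne'
  have hlc' : IsLcPlace F l g a c v' := by
    refine ⟨hcen, le_antisymm ?_ (hlct.1 v' hcen)⟩
    rw [hseq]
    unfold logDisc
    refine iSup₂_le fun f hf => ?_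
    rw [EReal.coe_le_coe_iff]
    have h1 : (((∑ i, v.v (f i)) - v.v (F.jac f) + v.v g / l : ℝ) : EReal) ≤ logDisc F l g v := by
      unfold logDisc
      exact le_iSup₂ (f := fun (f : Fin n → K) (_ : F.jac f ≠ 0) =>
        (((∑ i, v.v (f i)) - v.v (F.jac f) + v.v g / l : ℝ) : EReal)) f hf
    rw [hv.2, EReal.coe_le_coe_iff] at h1
    have h2 : (∑ i, v'.v (f i)) - v'.v (F.jac f) + v'.v g / l =
        ((∑ i, v.v (f i)) - v.v (F.jac f) + v.v g / l) / seqVal v a := by
      simp only [hv']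
      rw [← Finset.sum_div]
      ring
    rw [h2, div_le_iff₀ hsv, mul_one]
    exact h1
  exact ⟨v', hlc', hseq, fun x hx => mono_scale v v' _ hsv hv' x hx⟩

end

theorem vss (vsq : VsqStmt) (vfr : VfrStmt) (fri : Pool.Agent.QMA.FriStmt)
    (frq : Pool.Agent.QMA.FrqStmt) (ctd : Pool.Agent.QMA.CtdStmt) (svq : Pool.Agent.QMA.SvqStmt)
    (pmn : Pool.Agent.UCH.PmnStmt) (acp : Pool.Agent.UCH.AcpStmt)
    (scl : Pool.Agent.CNL.SclStmt) (mnz : Pool.Agent.CNL.MnzStmt) : VssStmt := by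
  intro k R K _ _ _ _ _ _ _ _ _ _ _ n F l g m a c E hl hg hgerm hklt hlct hE hex hno
  -- there is an lc place
  have hlcex : ∃ v : RVal k K, IsLcPlace F l g a c v := by
    by_contra hne
    push Not at hne
    exact hno ⟨∅, Set.finite_empty, fun e he => absurd he (Set.notMem_empty e),
      fun v hv => absurd hv (hne v)⟩
  obtain ⟨R₀, hfg, hloc⟩ := hgerm.fg
  have h1m := hgerm.proper
  have hres := hgerm.res
  obtain ⟨hifg, hifr, hiw⟩ := fri k R K m R₀ h1m hres hfg hloc
  obtain ⟨Φ, hs0, u, -, hcoord, hu0, hju⟩ := frq k K n 0 F (img K R₀) (fun i => i.elim0) hifr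
    (fun i => i.elim0) (algebraicIndependent_empty_type)
  obtain ⟨r, z, hz, hzad, hzw⟩ := ctd k R K m R₀ h1m hres hfg hloc
  obtain ⟨f₁, hf₁m, hf₁0⟩ := mnz k R K n F l g m a c hlct
  have hfr := vfr k R K n F Φ l g u m a c hl hg hu0 hju
  have hlct' : IsLct Φ l (g / u ^ l) a c := hfr.1.1 hlct
  -- positivity
  have hpos : ∀ v : RVal k K, IsLcPlace F l g a c v → 0 < c ∧ 0 < seqVal v a := by
    intro v hv
    have h1 := hklt v hv.1.1 ⟨f₁, hf₁0, hv.1.2 f₁ hf₁m hf₁0⟩
    rw [hv.2] at h1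
    have h2 : 0 < c * seqVal v a := by exact_mod_cast h1
    have h3 : 0 ≤ seqVal v a := (svq k R K m a v hv.1).1
    have h4 : 0 < seqVal v a := by
      rcases h3.lt_or_eq with h | h
      · exact h
      · rw [← h, mul_zero] at h2
        exact absurd h2 (lt_irrefl _)
    exact ⟨pos_of_mul_pos_left h2 h4.le, h4⟩
  obtain ⟨v₀, hv₀⟩ := hlcex
  have hc := (hpos v₀ hv₀).1
  -- the sequence
  obtain ⟨v, e, hve, hnew⟩ := vsq {v : RVal k K // IsLcPlace F l g a c v ∧ seqVal v a = 1}
    {e : Fin n → R // ∀ i, e i ∈ E}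
    (fun v e => IsMonomial v.1 (fun i => algebraMap R K (e.1 i)))
    (fun v => by
      obtain ⟨e, he1, he2⟩ := hex v.1 v.2.1
      exact ⟨⟨e, he1⟩, he2⟩)
    (fun Z hZ => by
      by_contra hne
      push Not at hne
      apply hno
      refine ⟨Subtype.val '' Z, hZ.image _, ?_, ?_⟩
      · rintro _ ⟨e, -, rfl⟩
        exact e.2
      · intro v hv
        obtain ⟨v', hv', hs', hmv⟩ := normal scl F l g m a c hlct v hv (hpos v hv).2
        obtain ⟨e, heZ, he⟩ := hne ⟨v', hv', hs'⟩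
        exact ⟨e.1, ⟨e, heZ, rfl⟩, hmv _ he⟩)
  -- the basis and the unit
  set b := Module.finBasis k E with hb
  obtain ⟨t, ht, htm, ht1, hta⟩ := common1 m h1m hres R₀ hloc (Module.finrank k E)
    (fun i => (b i : R))
  have ht0 : t ≠ 0 := by
    rintro rfl
    exact htm m.zero_mem
  have hvt : ∀ j, (v j).1.v (algebraMap R K t) = 0 := fun j =>
    (hiw (v j).1 (v j).2.1.1).2.2 t ht htm
  have himg : Algebra.adjoin k (Set.range fun i => algebraMap R K (z i)) = img K R₀ := by
    unfold img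
    rw [← hzad, AlgHom.map_adjoin]
    congr 1
    ext y
    constructor
    · rintro ⟨i, rfl⟩
      exact ⟨z i, ⟨i, rfl⟩, rfl⟩
    · rintro ⟨_, ⟨i, rfl⟩, rfl⟩
      exact ⟨i, rfl⟩
  have hmono : ∀ i j, IsMonomial (v j).1 (fun q => algebraMap R K (t * (e i).1 q)) ↔
      IsMonomial (v j).1 (fun q => algebraMap R K ((e i).1 q)) := fun i j =>
    mono_unit pmn m (v j).1 (v j).2.1.1 t ht1 (hvt j) ht0 _
  have hacp : ∀ j, Φ.jac (fun q => algebraMap R K (t * (e j).1 q)) ≠ 0 ∧
      (∑ i, (v j).1.v (algebraMap R K (t * (e j).1 i))) -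
        (v j).1.v (Φ.jac (fun q => algebraMap R K (t * (e j).1 q))) +
        (v j).1.v (g / u ^ l) / l = c ∧ Dsc Φ (v j).1 (c - (v j).1.v (g / u ^ l) / l) := by
    intro j
    refine acp k R K n Φ l (g / u ^ l) m c (v j).1 _ hgerm ?_ ((hmono j j).2 (hve j))
    have h1 := ((hfr.2 (v j).1).1 (v j).2.1).2
    rw [(v j).2.2, mul_one] at h1
    exact h1
  refine ⟨Φ, g / u ^ l, R₀, r, Module.finrank k E, z, fun i => algebraMap R K (t * (b i : R)),
    fun j => (v j).1, fun j q => algebraMap R K (t * (e j).1 q), div_ne_zero hg (pow_ne_zero _ hu0),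
    hc.le, hfg, hloc, hz, hzad, hzw, hlct', fun j => ⟨(hfr.2 _).1 (v j).2.1, (v j).2.2⟩, ?_, ?_,
    ?_, ?_⟩
  · intro j
    have h1 := (hacp j).2.1
    unfold al
    linarith
  · refine ⟨?_, ?_, ?_, ?_, fun j => (hacp j).1, ?_, ?_⟩
    · rw [himg]
      exact hifr
    · rw [himg]
      exact hcoord
    · intro i
      rw [himg]
      unfold img
      rw [Subalgebra.mem_map]
      exact ⟨t * (b i : R), hta i, rfl⟩
    · intro j
      exact (hmono j j).2 (hve j)
    · intro j
      have h1 := (hacp j).2.1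
      have h2 := (hacp j).2.2
      have h3 : (∑ i, (v j).1.v (algebraMap R K (t * (e j).1 i))) -
        (v j).1.v (Φ.jac (fun q => algebraMap R K (t * (e j).1 q))) =
        c - (v j).1.v (g / u ^ l) / l := by linarith
      show Dsc Φ (v j).1 ((∑ i, (v j).1.v (algebraMap R K (t * (e j).1 i))) -
        (v j).1.v (Φ.jac (fun q => algebraMap R K (t * (e j).1 q))))
      rw [h3]
      exact h2
    · intro i j hij h
      exact hnew i j hij ((hmono i j).1 h)
  · intro j q
    have h0 : ∀ x : E, (x : R) = ∑ i, b.repr x i • (b i : R) := by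
      intro x
      conv_lhs => rw [← b.sum_repr x]
      rw [Submodule.coe_sum]
      rfl
    have h1 : (e j).1 q = ∑ i, b.repr ⟨(e j).1 q, (e j).2 q⟩ i • (b i : R) :=
      h0 ⟨(e j).1 q, (e j).2 q⟩
    have h2 : algebraMap R K (t * (e j).1 q) =
        ∑ i, b.repr ⟨(e j).1 q, (e j).2 q⟩ i • algebraMap R K (t * (b i : R)) := by
      conv_lhs => rw [h1]
      rw [Finset.mul_sum, map_sum]
      refine Finset.sum_congr rfl fun i _ => ?_
      rw [mul_smul_comm]
      exact map_smul (IsScalarTower.toAlgHom k R K) _ _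
    show algebraMap R K (t * (e j).1 q) ∈ _
    rw [h2]
    exact Submodule.sum_mem _ fun i _ => Submodule.smul_mem _ _ (Submodule.subset_span ⟨i, rfl⟩)
  · intro j q
    have h1 : algebraMap R K (t * (e j).1 q) ≠ 0 := ((hmono j j).2 (hve j)).1 q
    refine (v j).2.1.1.1 _ ?_
    intro h0
    rw [h0, map_zero] at h1
    exact h1 rfl

end Pool.Agent.FCH.H26
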