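import Pool.Agent.FCH.StmtsZ
import Pool.Agent.Helper54_FCH.Mo

/-!
# Squad FCH, part Z, row ZKE (helper26): the key lemma
-/

set_option autoImplicit false

namespace Pool.Agent.FCH.H26

open Pool.Agent.LCI Pool.Agent.DFO Pool.Agent.FCH
open scoped BigOperators

section
variable {k : Type} [Field k] {q n : ℕ}

theorem wt_kw (κ : ℝ) (β : Fin n → ℝ) (ν : Fin q ⊕ Fin n →₀ ℕ) :
    wt (kw κ β) ν = κ * (sz (ν.comapDomain Sum.inl Sum.inl_injective.injOn) : ℝ) +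
      wt β (ν.comapDomain Sum.inr Sum.inr_injective.injOn) := by
  unfold wt kw sz
  rw [Fintype.sum_sum_type]
  simp only [Sum.elim_inl, Sum.elim_inr, Finsupp.comapDomain_apply]
  push_cast
  rw [Finset.mul_sum]

theorem comap_inl_map (μ : Fin n →₀ ℕ) :
    (Finsupp.mapDomain (Sum.inr : Fin n → Fin q ⊕ Fin n) μ).comapDomain Sum.inl
      Sum.inl_injective.injOn = 0 := by
  ext i
  rw [Finsupp.comapDomain_apply, Finsupp.mapDomain_of_notMem_range]
  · rfl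
  · rintro ⟨a, ha⟩
    cases ha

theorem comap_inr_map (μ : Fin n →₀ ℕ) :
    (Finsupp.mapDomain (Sum.inr : Fin n → Fin q ⊕ Fin n) μ).comapDomain Sum.inr
      Sum.inr_injective.injOn = μ := by
  ext i
  rw [Finsupp.comapDomain_apply, Finsupp.mapDomain_apply Sum.inr_injective]

theorem sz_zero : sz (0 : Fin q →₀ ℕ) = 0 := by
  unfold sz
  simp

theorem wt_map (κ : ℝ) (β : Fin n → ℝ) (μ : Fin n →₀ ℕ) :
    wt (kw (q := q) κ β) (Finsupp.mapDomain Sum.inr μ) = wt β μ := by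
  rw [wt_kw, comap_inl_map, comap_inr_map, sz_zero]
  simp

theorem comap_inl_sum (m : Fin q →₀ ℕ) (μ : Fin n →₀ ℕ) :
    (Finsupp.sumElim m μ).comapDomain Sum.inl Sum.inl_injective.injOn = m := by
  ext i
  rw [Finsupp.comapDomain_apply, Finsupp.sumElim_inl]

theorem comap_inr_sum (m : Fin q →₀ ℕ) (μ : Fin n →₀ ℕ) :
    (Finsupp.sumElim m μ).comapDomain Sum.inr Sum.inr_injective.injOn = μ := by
  ext i
  rw [Finsupp.comapDomain_apply, Finsupp.sumElim_inr]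

theorem od_spec (G : MvPowerSeries (Fin q) k) (hG : G ≠ 0) :
    ∃ m, MvPowerSeries.coeff m G ≠ 0 ∧ od G = sz m := by
  have hne : {d : ℕ | ∃ μ : Fin q →₀ ℕ, MvPowerSeries.coeff μ G ≠ 0 ∧ d = sz μ}.Nonempty := by
    by_contra h
    rw [Set.not_nonempty_iff_eq_empty] at h
    apply hG
    ext m
    by_contra hm
    have : sz m ∈ {d : ℕ | ∃ μ : Fin q →₀ ℕ, MvPowerSeries.coeff μ G ≠ 0 ∧ d = sz μ} :=
      ⟨m, hm, rfl⟩
    rw [h] at this
    exact this
  obtain ⟨m, hm, h2⟩ := Nat.sInf_mem hne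
  exact ⟨m, hm, h2⟩

end

section
variable {F : Type} [Field F] {n : ℕ}

theorem ips_inj (G H : MvPowerSeries (Fin n) F) (h : ips G = ips H) : G = H :=
  IsFractionRing.injective (MvPowerSeries (Fin n) F) (Lau n F) h

theorem ips_ne (G : MvPowerSeries (Fin n) F) (h : G ≠ 0) : ips G ≠ 0 := by
  intro hh
  apply h
  apply ips_inj
  rw [hh]
  unfold ips
  rw [map_zero]

theorem ne_of_ips (G : MvPowerSeries (Fin n) F) (h : ips G ≠ 0) : G ≠ 0 := by
  rintro rfl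
  apply h
  unfold ips
  rw [map_zero]

theorem mono_ne (a : Fin n →₀ ℕ) : MvPowerSeries.monomial a (1 : F) ≠ 0 := by
  intro h
  have := congrArg (MvPowerSeries.coeff a) h
  rw [MvPowerSeries.coeff_monomial_same] at this
  simp at this

theorem mn_ne (a : Fin n →₀ ℕ) : mn F a ≠ 0 := ips_ne _ (mono_ne a)

theorem v_mn (β : Fin n → ℝ) (V : RVal F (Lau n F)) (hV : IsMo β V) (a : Fin n →₀ ℕ) :
    V.v (mn F a) = wt β a := by
  classical
  obtain ⟨-, μ, h1, h2⟩ := hV _ (mono_ne a)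
  rw [MvPowerSeries.coeff_monomial] at h1
  have h3 : μ = a := by
    by_contra h
    exact h1 (if_neg h)
  rw [h3] at h2
  exact h2

/-- value of `x` from the value of the series of `mn a * x` -/
theorem v_of (β : Fin n → ℝ) (V : RVal F (Lau n F)) (hV : IsMo β V) (a : Fin n →₀ ℕ)
    (x : Lau n F) (hx : x ≠ 0) (G : MvPowerSeries (Fin n) F) (h : mn F a * x = ips G) :
    G ≠ 0 ∧ V.v (ips G) = wt β a + V.v x := by
  have h1 : ips G ≠ 0 := by
    rw [← h]
    exact mul_ne_zero (mn_ne a) hx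
  refine ⟨ne_of_ips G h1, ?_⟩
  rw [← h, V.mul' _ _ (mn_ne a) hx, v_mn β V hV]

end

section
variable {k F : Type} [Field k] [Field F] [Algebra k F] {P q n : ℕ} {b : ℕ → Fin P → k}

theorem coeff_kj (Γ : Geo k F P q b) (j : ℕ) (g : MvPowerSeries (Fin n) Γ.B)
    (ν : Fin q ⊕ Fin n →₀ ℕ) : MvPowerSeries.coeff ν (kj Γ j g) =
      MvPowerSeries.coeff (ν.comapDomain Sum.inl Sum.inl_injective.injOn)
        (Γ.kap j (MvPowerSeries.coeff (ν.comapDomain Sum.inr Sum.inr_injective.injOn) g)) := rfl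

theorem coeff_kj_map (Γ : Geo k F P q b) (j : ℕ) (g : MvPowerSeries (Fin n) Γ.B)
    (μ : Fin n →₀ ℕ) : MvPowerSeries.coeff (Finsupp.mapDomain Sum.inr μ) (kj Γ j g) =
      MvPowerSeries.constantCoeff (Γ.kap j (MvPowerSeries.coeff μ g)) := by
  rw [coeff_kj, comap_inl_map, comap_inr_map, MvPowerSeries.coeff_zero_eq_constantCoeff_apply]

theorem coeff_kj_sum (Γ : Geo k F P q b) (j : ℕ) (g : MvPowerSeries (Fin n) Γ.B)
    (m : Fin q →₀ ℕ) (μ : Fin n →₀ ℕ) :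
    MvPowerSeries.coeff (Finsupp.sumElim m μ) (kj Γ j g) =
      MvPowerSeries.coeff m (Γ.kap j (MvPowerSeries.coeff μ g)) := by
  rw [coeff_kj, comap_inl_sum, comap_inr_sum]

/-- the support of the series with the coefficients `(mu_l - pd_l) g_mu` -/
theorem kj_supp (Γ : Geo k F P q b) (j : ℕ) (g : MvPowerSeries (Fin n) Γ.B) (l : Fin n)
    (pd : Fin n →₀ ℕ) (ν : Fin q ⊕ Fin n →₀ ℕ)
    (h : MvPowerSeries.coeff ν (kj Γ j g) = 0) :
    MvPowerSeries.coeff ν (kj Γ j (show MvPowerSeries (Fin n) Γ.B from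
        fun μ => (((μ l : ℕ) : Γ.B) - ((pd l : ℕ) : Γ.B)) * MvPowerSeries.coeff μ g)) = 0 := by
  rw [coeff_kj] at h ⊢
  set μ := ν.comapDomain Sum.inr Sum.inr_injective.injOn with hμ
  set m := ν.comapDomain Sum.inl Sum.inl_injective.injOn with hm
  have h1 : MvPowerSeries.coeff μ (show MvPowerSeries (Fin n) Γ.B from
        fun μ => (((μ l : ℕ) : Γ.B) - ((pd l : ℕ) : Γ.B)) * MvPowerSeries.coeff μ g) =
      (((μ l : ℕ) : Γ.B) - ((pd l : ℕ) : Γ.B)) * MvPowerSeries.coeff μ g := rfl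
  rw [h1, map_mul, map_sub, map_natCast, map_natCast, sub_mul, map_sub, ← nsmul_eq_mul,
    ← nsmul_eq_mul, map_nsmul, map_nsmul, h, smul_zero, smul_zero, sub_zero]

end

theorem zke (_zmx : ZmxStmt) (zmv : ZmvStmt) (zjt : ZjtStmt) (zbs : ZbsStmt) (zkr : ZkrStmt)
    (zka : ZkaStmt) (zkb : ZkbStmt) (zde : ZdeStmt) : ZkeStmt := by
  intro k K F _ _ _ _ _ _ n r s q Φ f bs v e A Γ G Δ stg j κ hκ kle d y c hy cof μ hμ
  set β := A.β j with hβ
  have hβ0 : ∀ i, 0 ≤ β i := A.pos j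
  obtain ⟨⟨V, hV⟩, -⟩ := zmv n k β hβ0
  obtain ⟨⟨W, hW⟩, -⟩ := zmv n F β hβ0
  -- the log derivations
  have hld : ∀ l : Fin n, ∃ δ : Derivation k (Lau n k) (Lau n k), IsLd l δ := (zde k k n).1
  choose δ hδ using hld
  obtain ⟨a, J, N, hJ, hN, hsp⟩ := zbs k K F n r s q Φ f bs v e A Γ G Δ stg.coord δ hδ
  obtain ⟨hdt0, hdt⟩ := zjt k K n r s Φ f bs v e A stg j δ hδ V hV
  -- the series g
  set g : MvPowerSeries (Fin n) Γ.B := fun μ => ⟨MvPolynomial.aeval Γ.x (c μ), Γ.xB _⟩ with hg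
  have hgc : ∀ μ, MvPowerSeries.coeff μ g = ⟨MvPolynomial.aeval Γ.x (c μ), Γ.xB _⟩ := fun μ => rfl
  have hbg : mn F (d • A.pl) * G.T y = bF g := cof.gn
  have hg0 : g ≠ 0 := by
    intro h
    apply hμ
    have h1 := hgc μ
    rw [h] at h1
    have h2 := congrArg (Subtype.val) h1
    simpa using h2.symm
  have hG0 : kj Γ j g ≠ 0 := fun h => hg0 ((zkr k F A.P q n A.b Γ j).2.2 g h)
  -- the values
  have hTy : A.T j y ≠ 0 := (map_ne_zero _).2 hy
  suffices hmain : ∀ κ' : ℝ, κ < κ' → (v j).v y + wt β (d • A.pl) ≤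
      κ' * od (Γ.kap j ⟨MvPolynomial.aeval Γ.x (c μ), Γ.xB _⟩) + wt β μ by
    set o : ℝ := (od (Γ.kap j ⟨MvPolynomial.aeval Γ.x (c μ), Γ.xB _⟩) : ℝ) with ho
    have ho0 : 0 ≤ o := Nat.cast_nonneg _
    refine le_of_forall_pos_le_add fun ε hε => ?_
    have h1 : 0 < ε / (o + 1) := by positivity
    have h2 := hmain (κ + ε / (o + 1)) (by linarith)
    have h3 : ε / (o + 1) * o ≤ ε := by
      rw [div_mul_eq_mul_div, div_le_iff₀ (by linarith)]
      nlinarith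
    nlinarith
  intro κ' hκκ'
  have hκ'0 : 0 < κ' := lt_of_le_of_lt hκ hκκ'
  have hkw : ∀ i, 0 ≤ kw (q := q) κ' β i := by
    rintro (i | i)
    · exact hκ'0.le
    · exact hβ0 i
  -- (i)
  have hi : kj Γ j J ≠ 0 ∧ mo (kw κ' β) (kj Γ j J) ≤ wt β a + al Φ v e j := by
    obtain ⟨h1, h2⟩ := v_of β V hV a _ hdt0 _ (hsp j)
    obtain ⟨-, μ1, h3, h4⟩ := hV _ h1
    have h5 : MvPowerSeries.coeff (Finsupp.mapDomain Sum.inr μ1) (kj Γ j J) ≠ 0 := by
      rw [coeff_kj_map]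
      exact h3
    refine ⟨fun h => h5 (by rw [h]; simp), ?_⟩
    have h6 := H54.mo_le (kw κ' β) hkw _ _ h5
    rw [wt_map] at h6
    rw [hdt] at h2
    linarith
  -- (ii)
  have hii : ∀ (l : Fin n) (t : Fin q), kj Γ j (N l t) ≠ 0 →
      wt β a + al Φ v e j - κ ≤ mo (kw κ' β) (kj Γ j (N l t)) := by
    intro l t hne
    obtain ⟨⟨ν, hν, hν2⟩, -⟩ := H54.mo_spec (kw κ' β) hkw _ hne
    rw [hν2, wt_kw]
    set μ1 := ν.comapDomain Sum.inr Sum.inr_injective.injOn with hμ1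
    have h1 : MvPowerSeries.coeff μ1 (N l t) ≠ 0 := by
      intro h
      apply hν
      rw [coeff_kj, h, map_zero, map_zero]
    set Pf : MvPowerSeries (Fin n) F := fun μ => ((MvPowerSeries.coeff μ (N l t) : Γ.B) : F)
      with hPf
    have h2 : MvPowerSeries.coeff μ1 Pf ≠ 0 := by
      intro h
      apply h1
      have h' : ((MvPowerSeries.coeff μ1 (N l t) : Γ.B) : F) = 0 := h
      exact_mod_cast h'
    have h3 : Pf ≠ 0 := by
      intro h
      apply h2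
      rw [h]
      simp
    have h4 : mn F a * nt Φ Δ G.T l t = ips Pf := hN l t
    have h5 : nt Φ Δ G.T l t ≠ 0 := by
      intro h
      rw [h, mul_zero] at h4
      exact ips_ne Pf h3 h4.symm
    obtain ⟨-, h6⟩ := v_of β W hW a _ h5 _ h4
    have h7 := (hW Pf h3).1 μ1 h2
    have h8 := kle W hW l t h5
    have h9 : 0 ≤ κ' * (sz (ν.comapDomain Sum.inl Sum.inl_injective.injOn) : ℝ) := by positivity
    linarith
  -- the claim
  have hclaim : ∀ t : Fin q, pt t (kj Γ j g) ≠ 0 →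
      mo (kw κ' β) (kj Γ j g) - κ ≤ mo (kw κ' β) (pt t (kj Γ j g)) := by
    intro t ht
    have heq := zkb k K F n q A.P Φ A.b Γ Δ G.T a (d • A.pl) J (fun l => N l t) t y g j hJ
      (fun l => hN l t) hbg
    have hne : kj Γ j J * pt t (kj Γ j g) ≠ 0 := mul_ne_zero hi.1 ht
    have h1 := H54.mo_mul (kw κ' β) hkw _ _ hi.1 ht
    have h2 : wt β a + al Φ v e j - κ + mo (kw κ' β) (kj Γ j g) ≤
        mo (kw κ' β) (kj Γ j J * pt t (kj Γ j g)) := by
      refine H54.mo_ge (kw κ' β) hkw _ hne _ fun m hm => ?_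
      rw [heq, map_sum]
      refine Finset.sum_eq_zero fun l _ => ?_
      set Hl := kj Γ j (show MvPowerSeries (Fin n) Γ.B from
        fun μ => (((μ l : ℕ) : Γ.B) - (((d • A.pl) l : ℕ) : Γ.B)) * MvPowerSeries.coeff μ g)
        with hHl
      by_cases hN0 : kj Γ j (N l t) = 0
      · rw [hN0, zero_mul, map_zero]
      by_cases hH0 : Hl = 0
      · rw [hH0, mul_zero, map_zero]
      have h3 : mo (kw κ' β) (kj Γ j g) ≤ mo (kw κ' β) Hl := by
        refine H54.mo_ge (kw κ' β) hkw _ hH0 _ fun m' hm' => ?_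
        exact kj_supp Γ j g l (d • A.pl) m' (H54.coeff_eq_zero (kw κ' β) hkw _ m' hm')
      refine H54.coeff_eq_zero (kw κ' β) hkw _ m ?_
      rw [H54.mo_mul (kw κ' β) hkw _ _ hN0 hH0]
      have h4 := hii l t hN0
      linarith
    linarith [hi.2]
  -- the least weight is attained without t
  obtain ⟨μ0, h01, h02⟩ := zka k q n β κ κ' (kj Γ j g) hβ0 hκκ' hκ'0 hG0 hclaim
  rw [coeff_kj_map, hgc, Γ.ev] at h01
  have hA : (v j).v y + wt β (d • A.pl) ≤ mo (kw κ' β) (kj Γ j g) := by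
    obtain ⟨h1, h2⟩ := v_of β V hV (d • A.pl) _ hTy _ (cof.sp j)
    have h3 := (hV _ h1).1 μ0 h01
    have h4 := A.val j V hV y hy
    rw [← h02]
    linarith
  -- the coefficient at mu
  have hkm : Γ.kap j ⟨MvPolynomial.aeval Γ.x (c μ), Γ.xB _⟩ ≠ 0 := by
    intro h
    apply hμ
    have h1 := Γ.inj j (h.trans (map_zero (Γ.kap j)).symm)
    exact congrArg Subtype.val h1
  obtain ⟨m, hm, hm2⟩ := od_spec _ hkm
  have h5 : MvPowerSeries.coeff (Finsupp.sumElim m μ) (kj Γ j g) ≠ 0 := by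
    rw [coeff_kj_sum]
    exact hm
  have h6 := H54.mo_le (kw κ' β) hkw _ _ h5
  rw [wt_kw, comap_inl_sum, comap_inr_sum] at h6
  rw [hm2]
  linarith

end Pool.Agent.FCH.H26
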